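import Pool.Agent.Q117.NE.Rat

/-! Torsion-free rings without zero divisors in the variety are commutative. -/

set_option autoImplicit false

namespace Pool.Agent.Q117.NE

open Pool.Agent.H854R3.NE
open scoped TensorProduct

/-- two-generated torsion-free rings without zero divisors are commutative -/
theorem domain_commZ {E : Set (RTerm × RTerm)} {n p : ℕ} [hp : Fact p.Prime] (hD : D2Engel E n)
    (hW : IsEngel (E ∪ WId p (p ^ 1))) {P : Type} [NonUnitalRing P] (hP : Models E P)
    (hT : ∀ (n : ℤ) (a : P), n • a = 0 → n = 0 ∨ a = 0)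
    (hdom : ∀ a b : P, a * b = 0 → a = 0 ∨ b = 0) {x y : P}
    (hg : GenBy x y) : x * y = y * x := by
  classical
  by_contra hne
  have hα0 : x * y - y * x ≠ 0 := fun h => hne (sub_eq_zero.1 h)
  have hαk : ∀ k, npw (x * y - y * x) k ≠ 0 := by
    intro k
    induction k with
    | zero => exact hα0
    | succ k ih =>
      intro h
      rcases hdom _ _ h with h | h
      · exact ih h
      · exact hα0 h
  let ι : P →ₙ+* Unitization ℤ P :=
    { toFun := fun a => (a : Unitization ℤ P)
      map_mul' := Unitization.inr_mul ℤ
      map_zero' := Unitization.inr_zero ℤ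
      map_add' := Unitization.inr_add ℤ }
  have hι : Function.Injective ι := Unitization.inr_injective
  obtain ⟨d, c, hc1, hc⟩ := exists_mlZ hW P (Unitization ℤ P) ι hι hP
  have hBT : ∀ (n : ℤ) (b : Unitization ℤ P), (n : Unitization ℤ P) * b = 0 → n = 0 ∨ b = 0 := by
    intro n b hb
    induction b using Unitization.ind with
    | inl_add_inr k a =>
      have h0 : (n : Unitization ℤ P) = Unitization.inl n :=
        (map_intCast (Unitization.inlRingHom ℤ P) n).symm
      rw [h0, mul_add, ← Unitization.inl_mul, Unitization.inl_mul_inr] at hb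
      have h1 := congrArg Unitization.toProd hb
      have h2 : n * k = 0 := by
        have h4 : n * k + 0 = 0 := congrArg Prod.fst h1
        rwa [add_zero] at h4
      have h3 : n • a = 0 := by
        have h4 : (0 : P) + n • a = 0 := congrArg Prod.snd h1
        rwa [zero_add] at h4
      by_cases hn : n = 0
      · exact Or.inl hn
      · right
        rw [(mul_eq_zero.1 h2).resolve_left hn, (hT _ _ h3).resolve_left hn]
        simp
  have hB : ∀ b : Unitization ℤ P, ∃ (k : ℤ) (a : P), b = k • (1 : Unitization ℤ P) + ι a := by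
    intro b
    induction b using Unitization.ind with
    | inl_add_inr k a =>
      refine ⟨k, a, ?_⟩
      have h := map_zsmul (Unitization.inlRingHom ℤ P) k 1
      rw [map_one, smul_eq_mul, mul_one] at h
      rw [← h]
      rfl
  obtain ⟨K, iK, s, Θ, hΘ⟩ := rat_rep hBT ι hι hB c hc1 hc hαk
  obtain ⟨k, hk⟩ := no_rep hD hP hg Θ
  exact hΘ k hk

end Pool.Agent.Q117.NE
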