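import Pool.Agent.Q117.NE.Dom0

/-! Every minimal non-Engel variety of rings is a Cross variety. -/

set_option autoImplicit false

namespace Pool.Agent.Q117.NE

open Pool.Agent.H854R3.NE

variable {R : Type} [NonUnitalRing R]

/-- prime rings are torsion-free or of prime characteristic -/
theorem prime_char (hP : PrimeR R) :
    (∀ (n : ℤ) (a : R), n • a = 0 → n = 0 ∨ a = 0) ∨ ∃ p : ℕ, p.Prime ∧ ∀ x : R, p • x = 0 := by
  by_cases h : ∀ (n : ℕ) (a : R), n • a = 0 → n = 0 ∨ a = 0
  · left
    intro n a hna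
    have h1 : n.natAbs • a = 0 := by
      rcases Int.natAbs_eq n with h2 | h2
      · rw [h2] at hna; simpa using hna
      · rw [h2] at hna; simpa using hna
    rcases h _ _ h1 with h2 | h2
    · exact Or.inl (Int.natAbs_eq_zero.1 h2)
    · exact Or.inr h2
  · right
    push Not at h
    obtain ⟨n, a, hna, hn, ha⟩ := h
    have key : ∀ n : ℕ, n ≠ 0 → ∀ a : R, a ≠ 0 → n • a = 0 →
        ∃ (p : ℕ) (b : R), p.Prime ∧ b ≠ 0 ∧ p • b = 0 := by
      intro n
      induction n using Nat.strong_induction_on with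
      | _ n ih =>
        intro hn a ha hna
        have hn1 : n ≠ 1 := by
          rintro rfl
          rw [one_smul] at hna
          exact ha hna
        obtain ⟨p, hp, m, rfl⟩ := Nat.exists_prime_and_dvd hn1
        by_cases hma : m • a = 0
        · have hm0 : m ≠ 0 := by rintro rfl; exact hn (mul_zero _)
          apply ih m _ hm0 a ha hma
          have := hp.two_le
          have : 0 < m := Nat.pos_of_ne_zero hm0
          nlinarith
        · exact ⟨p, m • a, hp, hma, by rw [smul_smul]; exact hna⟩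
    obtain ⟨p, b, hp, hb, hpb⟩ := key n hn a ha hna
    refine ⟨p, hp, fun x => ?_⟩
    refine (hP (p • x) b (fun r => ?_)).resolve_right hb
    rw [smul_mul_assoc, smul_mul_assoc, ← mul_smul_comm, hpb, mul_zero]

/-- prime rings of the variety are commutative -/
theorem prime_comm_all {E : Set (RTerm × RTerm)}
    (hW : ∀ p k : ℕ, p.Prime → 1 ≤ k → IsEngel (E ∪ WId p (p ^ k))) {n : ℕ}
    (hD : D2Engel E n) (hR : Models E R) (hP : PrimeR R) (x y : R) : x * y = y * x := by
  rcases prime_char hP with hT | ⟨p, hp, hpR⟩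
  · have : Fact (Nat.Prime 2) := ⟨Nat.prime_two⟩
    have h1 := domain_commZ (p := 2) hD (hW 2 1 Nat.prime_two le_rfl) (hR.subring (sub2 x y))
      (fun k z hz => by
        rcases hT k (z : R) (congrArg Subtype.val hz) with h | h
        · exact Or.inl h
        · exact Or.inr (Subtype.ext h))
      (fun a b hab => by
        rcases domain_of_prime hD hR hP (a := (a : R)) (b := (b : R))
          (congrArg Subtype.val hab) with h | h
        · exact Or.inl (Subtype.ext h)
        · exact Or.inr (Subtype.ext h)) (genBy_sub2 x y)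
    exact congrArg Subtype.val h1
  · have : Fact p.Prime := ⟨hp⟩
    exact prime_comm hD (hW p 1 hp le_rfl) hR hpR hP x y

/-- commutators of the ring generated by `e` and `y` lie in every ideal containing `e` -/
theorem comm_mem {e y : R} {K : TwoSidedIdeal R} (he : e ∈ K) (a b : sub2 e y) :
    (a : R) * b - b * a ∈ K := by
  have h1 : ∀ a : sub2 e y, (a : R) * y - y * a ∈ K := by
    intro a
    refine (genBy_sub2 e y).induction (P := fun a => (a : R) * y - y * a ∈ K) ?_ ?_ ?_ ?_ ?_ ?_ a
    · exact K.sub_mem (K.mul_mem_right _ _ he) (K.mul_mem_left _ _ he)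
    · change y * y - y * y ∈ K
      rw [sub_self]; exact K.zero_mem
    · change (0 : R) * y - y * 0 ∈ K
      rw [zero_mul, mul_zero, sub_self]; exact K.zero_mem
    · intro a b ha hb
      change ((a : R) + b) * y - y * (a + b) ∈ K
      have : ((a : R) + b) * y - y * (a + b) = (a * y - y * a) + (b * y - y * b) := by
        noncomm_ring
      rw [this]; exact K.add_mem ha hb
    · intro a ha
      change (-(a : R)) * y - y * (-a) ∈ K
      have : (-(a : R)) * y - y * (-a) = -(a * y - y * a) := by noncomm_ring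
      rw [this]; exact K.neg_mem ha
    · intro a b ha hb
      change ((a : R) * b) * y - y * (a * b) ∈ K
      have : ((a : R) * b) * y - y * (a * b) = a * (b * y - y * b) + (a * y - y * a) * b := by
        noncomm_ring
      rw [this]; exact K.add_mem (K.mul_mem_left _ _ hb) (K.mul_mem_right _ _ ha)
  revert a
  refine (genBy_sub2 e y).induction (P := fun b => ∀ a : sub2 e y, (a : R) * b - b * a ∈ K)
    ?_ ?_ ?_ ?_ ?_ ?_ b
  · intro a
    exact K.sub_mem (K.mul_mem_left _ _ he) (K.mul_mem_right _ _ he)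
  · intro a; exact h1 a
  · intro a
    change (a : R) * 0 - 0 * a ∈ K
    rw [zero_mul, mul_zero, sub_self]; exact K.zero_mem
  · intro b c hb hc a
    change (a : R) * (b + c) - (b + c) * a ∈ K
    have : (a : R) * (b + c) - (b + c) * a = (a * b - b * a) + (a * c - c * a) := by
      noncomm_ring
    rw [this]; exact K.add_mem (hb a) (hc a)
  · intro b hb a
    change (a : R) * (-b) - (-b) * a ∈ K
    have : (a : R) * (-b) - (-b) * a = -(a * b - b * a) := by noncomm_ring
    rw [this]; exact K.neg_mem (hb a)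
  · intro b c hb hc a
    change (a : R) * (b * c) - (b * c) * a ∈ K
    have : (a : R) * (b * c) - (b * c) * a = (a * b - b * a) * c + b * (a * c - c * a) := by
      noncomm_ring
    rw [this]; exact K.add_mem (K.mul_mem_right _ _ (hb a)) (K.mul_mem_left _ _ (hc a))

/-- The main step. -/
theorem engel_of_all {E : Set (RTerm × RTerm)}
    (hW : ∀ p k : ℕ, p.Prime → 1 ≤ k → IsEngel (E ∪ WId p (p ^ k))) : IsEngel E := by
  obtain ⟨n, hD⟩ := exists_D2Engel hW
  apply isEngel_of_forall
  intro A _ x y hA
  by_contra hcon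
  push Not at hcon
  obtain ⟨I, hI, hmax⟩ := exists_max_ideal (fun I : TwoSidedIdeal A => ∀ k, eng x y k ∉ I)
    (by intro k; rw [TwoSidedIdeal.mem_bot]; exact hcon k)
    (by
      intro c _ _ hP U hU k hk
      obtain ⟨I, hI, h⟩ := (hU _).1 hk
      exact hP I hI k h)
  obtain ⟨Q, inst, φ, hφ, hker⟩ := exists_quot I
  have hQ : Models E Q := hA.of_surjective φ hφ
  set x' := φ x with hx'
  set y' := φ y with hy'
  have hne : ∀ k, eng x' y' k ≠ 0 := by
    intro k h
    rw [hx', hy', ← eng_map, hker] at h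
    exact hI k h
  -- every non-zero ideal of `Q` contains some iterated commutator
  have hbig : ∀ J : TwoSidedIdeal Q, J ≠ ⊥ → ∃ k, eng x' y' k ∈ J := by
    intro J hJ
    by_contra hcon2
    push Not at hcon2
    let J' : TwoSidedIdeal A := TwoSidedIdeal.mk' {x | φ x ∈ J}
      (by change φ 0 ∈ J; rw [map_zero]; exact J.zero_mem)
      (by intro x y hx hy; change φ (x + y) ∈ J; rw [map_add]; exact J.add_mem hx hy)
      (by intro x hx; change φ (-x) ∈ J; rw [map_neg]; exact J.neg_mem hx)
      (by intro x y hy; change φ (x * y) ∈ J; rw [map_mul]; exact J.mul_mem_left _ _ hy)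
      (by intro x y hx; change φ (x * y) ∈ J; rw [map_mul]; exact J.mul_mem_right _ _ hx)
    have hJ' : ∀ x, x ∈ J' ↔ φ x ∈ J := fun x => TwoSidedIdeal.mem_mk' _ _ _ _ _ _ x
    have h1 : J' = I := by
      apply hmax J'
      · intro k
        rw [hJ', eng_map]
        exact hcon2 k
      · intro z hz
        rw [hJ', (hker z).2 hz]
        exact J.zero_mem
    obtain ⟨w, hw, hw0⟩ := exists_mem_ne hJ
    obtain ⟨z, rfl⟩ := hφ w
    apply hw0
    rw [hker, ← h1, hJ']
    exact hw
  have hup : ∀ (J : TwoSidedIdeal Q) (k l : ℕ), eng x' y' k ∈ J → k ≤ l → eng x' y' l ∈ J := by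
    intro J k l hk hkl
    obtain ⟨m, rfl⟩ := Nat.exists_eq_add_of_le hkl
    induction m with
    | zero => exact hk
    | succ m ih =>
      change eng x' y' (k + m) * y' - y' * eng x' y' (k + m) ∈ J
      have := ih (Nat.le_add_right _ _)
      exact J.sub_mem (J.mul_mem_right _ _ this) (J.mul_mem_left _ _ this)
  -- an ideal with square zero
  have hfin : ∀ K : TwoSidedIdeal Q, K ≠ ⊥ → (∀ s ∈ K, ∀ t ∈ K, s * t = 0) →
      (∀ s ∈ K, ∀ t ∈ K, ∀ r, s * r * t = 0) → False := by
    intro K hK h1 h2
    obtain ⟨N, hN⟩ := hbig K hK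
    have hD2 : D2 (sub2 (eng x' y' N) y') := by
      constructor
      · rintro _ ⟨a, b, rfl⟩ _ ⟨c, d, rfl⟩
        apply Subtype.ext
        exact h1 _ (comm_mem hN a b) _ (comm_mem hN c d)
      · rintro _ ⟨a, b, rfl⟩ _ ⟨c, d, rfl⟩ r
        apply Subtype.ext
        exact h2 _ (comm_mem hN a b) _ (comm_mem hN c d) r
    have h3 := hD.2 (sub2 (eng x' y' N) y') (hQ.subring _) hD2 (sx (eng x' y' N) y')
      (sy (eng x' y' N) y')
    have h4 := eng_map (NonUnitalSubringClass.subtype (sub2 (eng x' y' N) y'))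
      (sx (eng x' y' N) y') (sy (eng x' y' N) y') n
    rw [h3, map_zero] at h4
    change 0 = eng (eng x' y' N) y' n at h4
    rw [← eng_add] at h4
    exact hne _ h4.symm
  by_cases hP : PrimeR Q
  · have h1 := prime_comm_all hW hD hQ hP x' y'
    apply hne 1
    change x' * y' - y' * x' = 0
    rw [h1, sub_self]
  · unfold PrimeR at hP
    push Not at hP
    obtain ⟨u, v, huv, hu, hv⟩ := hP
    -- the ideals generated by `u` and `v`
    have hUV : ∀ a ∈ TwoSidedIdeal.span ({u} : Set Q), ∀ b ∈ TwoSidedIdeal.span ({v} : Set Q),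
        ∀ r, a * r * b = 0 := by
      have step : ∀ a ∈ TwoSidedIdeal.span ({u} : Set Q), ∀ r, a * r * v = 0 := by
        let I : TwoSidedIdeal Q := TwoSidedIdeal.mk' {m | ∀ c, m * c * v = 0}
          (fun c => by rw [zero_mul, zero_mul])
          (by
            intro x y h1 h2 c
            rw [add_mul, add_mul, h1 c, h2 c, add_zero])
          (by
            intro x h1 c
            rw [neg_mul, neg_mul, h1 c, neg_zero])
          (by
            intro r x h1 c
            rw [mul_assoc, mul_assoc, ← mul_assoc x, h1 c, mul_zero])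
          (by
            intro x r h1 c
            rw [mul_assoc x r c]; exact h1 _)
        have hle : TwoSidedIdeal.span ({u} : Set Q) ≤ I := by
          rw [TwoSidedIdeal.span_le]
          intro b hb
          rw [Set.mem_singleton_iff] at hb
          subst hb
          exact (TwoSidedIdeal.mem_mk' _ _ _ _ _ _ b).2 huv
        intro m hm
        exact (TwoSidedIdeal.mem_mk' _ _ _ _ _ _ m).1 (hle hm)
      intro a ha
      let I : TwoSidedIdeal Q := TwoSidedIdeal.mk' {m | ∀ c, a * c * m = 0}
        (fun c => by rw [mul_zero])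
        (by
          intro x y h1 h2 c
          rw [mul_add, h1 c, h2 c, add_zero])
        (by
          intro x h1 c
          rw [mul_neg, h1 c, neg_zero])
        (by
          intro r x h1 c
          rw [← mul_assoc, mul_assoc a c r]; exact h1 _)
        (by
          intro x r h1 c
          rw [← mul_assoc, h1 c, zero_mul])
      have hle : TwoSidedIdeal.span ({v} : Set Q) ≤ I := by
        rw [TwoSidedIdeal.span_le]
        intro b hb
        rw [Set.mem_singleton_iff] at hb
        subst hb
        exact (TwoSidedIdeal.mem_mk' _ _ _ _ _ _ b).2 (step a ha)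
      intro b hb
      exact (TwoSidedIdeal.mem_mk' _ _ _ _ _ _ b).1 (hle hb)
    obtain ⟨k, hk⟩ := hbig (TwoSidedIdeal.span ({u} : Set Q))
      (ne_bot_of_mem (TwoSidedIdeal.subset_span rfl) hu)
    obtain ⟨l, hl⟩ := hbig (TwoSidedIdeal.span ({v} : Set Q))
      (ne_bot_of_mem (TwoSidedIdeal.subset_span rfl) hv)
    let K0 : TwoSidedIdeal Q := TwoSidedIdeal.span ({u} : Set Q) ⊓ TwoSidedIdeal.span ({v} : Set Q)
    have hK0 : ∀ a, a ∈ K0 ↔ a ∈ TwoSidedIdeal.span ({u} : Set Q) ∧
        a ∈ TwoSidedIdeal.span ({v} : Set Q) := fun a => Iff.rfl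
    have hK0r : ∀ s ∈ K0, ∀ t ∈ K0, ∀ r, s * r * t = 0 := fun s hs t ht r =>
      hUV s ((hK0 s).1 hs).1 t ((hK0 t).1 ht).2 r
    by_cases hsq : ∀ s ∈ K0, ∀ t ∈ K0, s * t = 0
    · refine hfin K0 ?_ hsq hK0r
      refine ne_bot_of_mem ((hK0 _).2 ⟨hup _ _ _ hk (le_max_left k l),
        hup _ _ _ hl (le_max_right k l)⟩) (hne _)
    · push Not at hsq
      obtain ⟨s, hs, t, ht, hst⟩ := hsq
      have e1 : ∀ a ∈ ({s * t} : Set Q), ∀ b ∈ ({s * t} : Set Q), a * b = 0 := by
        rintro _ rfl _ rfl
        have : s * t * (s * t) = (s * (t * s) * t) := by noncomm_ring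
        rw [this]; exact hK0r s hs t ht _
      have e2 : ∀ a ∈ ({s * t} : Set Q), ∀ b ∈ ({s * t} : Set Q), ∀ c, a * c * b = 0 := by
        rintro _ rfl _ rfl c
        have : s * t * c * (s * t) = (s * (t * c * s) * t) := by noncomm_ring
        rw [this]; exact hK0r s hs t ht _
      refine hfin (TwoSidedIdeal.span ({s * t} : Set Q))
        (ne_bot_of_mem (TwoSidedIdeal.subset_span rfl) hst)
        (fun a ha b hb => span_mul_zero e1 e2 ha hb) ?_
      intro a ha b hb r
      exact span_mul_zero e1 e2 (TwoSidedIdeal.mul_mem_right _ _ _ ha) hb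

/-- Every minimal non-Engel variety of rings is a Cross variety. -/
theorem cross_of_minimal (E : Set (RTerm × RTerm)) (hE : MinimalNonEngel E) : IsCross E := by
  obtain ⟨p, k, hp, hk, hnot⟩ : ∃ p k : ℕ, p.Prime ∧ 1 ≤ k ∧ ¬ IsEngel (E ∪ WId p (p ^ k)) := by
    by_contra hcon
    push Not at hcon
    exact hE.1 (engel_of_all hcon)
  have : Fact p.Prime := ⟨hp⟩
  have h1 : SubvarietyOf (E ∪ WId p (p ^ k)) E := fun R _ hR e he => hR e (Or.inl he)
  have h2 : SubvarietyOf E (E ∪ WId p (p ^ k)) := by
    by_contra hcon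
    exact hnot (hE.2 _ h1 hcon)
  exact cross_of_sub hk (fun R _ hR e he => h2 R hR e (Or.inr he))

end Pool.Agent.Q117.NE
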