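import Mathlib

/-! Linearisation of polynomial identities. -/

namespace Pool.Agent.Q117.NE

open Finset

universe u v

section

variable {F : Type u} [CommRing F]

theorem of_eq {n : ℕ} (w : FreeMonoid (Fin n)) :
    FreeAlgebra.equivMonoidAlgebraFreeMonoid (R := F) (X := Fin n)
      ((w.toList.map (FreeAlgebra.ι F)).prod) = MonoidAlgebra.of F (FreeMonoid (Fin n)) w := by
  induction w using FreeMonoid.recOn with
  | one => simp; rfl
  | of_mul a w ih =>
    rw [FreeMonoid.toList_of_mul, List.map_cons, List.prod_cons, map_mul, map_mul, ih]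
    congr 1
    simp [FreeAlgebra.equivMonoidAlgebraFreeMonoid]

theorem basis_eq {n : ℕ} (w : FreeMonoid (Fin n)) :
    FreeAlgebra.basisFreeMonoid F (Fin n) w = (w.toList.map (FreeAlgebra.ι F)).prod := by
  apply (FreeAlgebra.equivMonoidAlgebraFreeMonoid (R := F) (X := Fin n)).injective
  rw [of_eq]
  simp [FreeAlgebra.basisFreeMonoid, MonoidAlgebra.coeffLinearEquiv]

/-- evaluation of a noncommutative polynomial, written out over its monomials -/
theorem lift_eq {n : ℕ} {C : Type v} [Ring C] [Algebra F C] (a : Fin n → C)
    (f : FreeAlgebra F (Fin n)) :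
    FreeAlgebra.lift F a f =
      ∑ w ∈ ((FreeAlgebra.basisFreeMonoid F (Fin n)).repr f).support,
        (FreeAlgebra.basisFreeMonoid F (Fin n)).repr f w • (w.toList.map a).prod := by
  conv_lhs => rw [← (FreeAlgebra.basisFreeMonoid F (Fin n)).linearCombination_repr f]
  rw [Finsupp.linearCombination_apply, Finsupp.sum, map_sum]
  refine Finset.sum_congr rfl fun w _ => ?_
  rw [map_smul, basis_eq, map_list_prod, List.map_map]
  congr 2
  apply List.map_congr_left
  intro x _
  simp

theorem prod_sum {C : Type v} [Ring C] [Algebra F C] {l d : ℕ} (S : Fin l → Finset (Fin d))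
    (a : Fin d → C) :
    (List.ofFn fun k => ∑ j ∈ S k, a j).prod =
      ∑ φ ∈ Fintype.piFinset S, (List.ofFn fun k => a (φ k)).prod := by
  have h := (MultilinearMap.mkPiAlgebraFin F l C).map_sum_finset (fun _ j => a j) S
  simpa [MultilinearMap.mkPiAlgebraFin_apply] using h

/-- inclusion-exclusion: the part of a substituted monomial of degree at most `d` in which all
`d` new variables occur -/
theorem incl_excl {C : Type v} [Ring C] [Algebra F C] {n d : ℕ} (u : Fin d → Fin n)
    (a : Fin d → C) (w : List (Fin n)) (hw : w.length ≤ d) :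
    ∑ U : Finset (Fin d), ((-1 : ℤ) ^ U.card) •
      (w.map fun i => ∑ j ∈ univ.filter (fun j => j ∉ U ∧ u j = i), a j).prod =
    ∑ τ : Equiv.Perm (Fin d), if List.ofFn (fun k => u (τ k)) = w then
      (List.ofFn fun k => a (τ k)).prod else 0 := by
  classical
  obtain ⟨l, w', rfl⟩ : ∃ l, ∃ w' : Fin l → Fin n, w = List.ofFn w' :=
    ⟨w.length, w.get, (List.ofFn_get w).symm⟩
  rw [List.length_ofFn] at hw
  have h1 : ∀ U : Finset (Fin d),
      ((-1 : ℤ) ^ U.card) • ((List.ofFn w').map fun i =>
        ∑ j ∈ univ.filter (fun j => j ∉ U ∧ u j = i), a j).prod =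
      ∑ φ : Fin l → Fin d, if (∀ k, φ k ∉ U) ∧ (∀ k, u (φ k) = w' k) then
        ((-1 : ℤ) ^ U.card) • (List.ofFn fun k => a (φ k)).prod else 0 := by
    intro U
    rw [List.map_ofFn]
    have h2 := prod_sum (F := F) (C := C)
      (fun k => univ.filter (fun j => j ∉ U ∧ u j = w' k)) a
    simp only [Function.comp_def]
    rw [h2, Finset.smul_sum, ← Finset.sum_filter]
    apply Finset.sum_congr _ (fun _ _ => rfl)
    ext φ
    simp only [Fintype.mem_piFinset, mem_filter, mem_univ, true_and]
    exact forall_and
  rw [Finset.sum_congr rfl (fun U _ => h1 U), Finset.sum_comm]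
  have h3 : ∀ φ : Fin l → Fin d, (∑ U : Finset (Fin d),
      if (∀ k, φ k ∉ U) ∧ (∀ k, u (φ k) = w' k) then
        ((-1 : ℤ) ^ U.card) • (List.ofFn fun k => a (φ k)).prod else 0) =
      if Function.Surjective φ ∧ (∀ k, u (φ k) = w' k) then
        (List.ofFn fun k => a (φ k)).prod else 0 := by
    intro φ
    by_cases hc : ∀ k, u (φ k) = w' k
    · simp only [hc, implies_true, and_true]
      have h4 : ∀ U : Finset (Fin d), (∀ k, φ k ∉ U) ↔ U ∈ ((univ.image φ)ᶜ).powerset := by
        intro U
        simp only [mem_powerset, subset_iff, mem_compl, mem_image, mem_univ, true_and, not_exists]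
        constructor
        · intro h x hx k hk
          exact h k (hk ▸ hx)
        · intro h k hk
          exact h hk k rfl
      rw [← Finset.sum_filter]
      have h5 : (univ.filter fun U : Finset (Fin d) => ∀ k, φ k ∉ U) =
          ((univ.image φ)ᶜ).powerset := by
        ext U
        simp only [mem_filter, mem_univ, true_and]
        exact h4 U
      rw [h5, ← Finset.sum_smul, Finset.sum_powerset_neg_one_pow_card]
      by_cases hs : Function.Surjective φ
      · have : (univ.image φ)ᶜ = ∅ := by
          rw [Finset.image_univ_of_surjective hs]; simp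
        rw [if_pos this, if_pos hs, one_smul]
      · have : (univ.image φ)ᶜ ≠ ∅ := by
          intro h
          apply hs
          intro y
          have hy : y ∉ (univ.image φ)ᶜ := by rw [h]; simp
          simpa using hy
        rw [if_neg this, if_neg hs, zero_smul]
    · simp [hc]
  rw [Finset.sum_congr rfl (fun φ _ => h3 φ)]
  rcases hw.lt_or_eq with hlt | rfl
  · rw [Finset.sum_eq_zero, Finset.sum_eq_zero]
    · intro τ _
      rw [if_neg]
      intro h
      have := congrArg List.length h
      simp at this
      omega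
    · intro φ _
      rw [if_neg]
      rintro ⟨h, -⟩
      have := Fintype.card_le_of_surjective φ h
      simp at this
      omega
  · symm
    apply Finset.sum_of_injOn (fun τ : Equiv.Perm (Fin l) => (τ : Fin l → Fin l))
    · intro τ _ τ' _ h
      exact Equiv.coe_fn_injective h
    · intro _ _
      simp
    · intro φ _ hφ
      rw [if_neg]
      rintro ⟨h, -⟩
      apply hφ
      exact ⟨Equiv.ofBijective φ (Finite.surjective_iff_bijective.1 h), by simp, rfl⟩
    · intro τ _
      have : (List.ofFn (fun k => u (τ k)) = List.ofFn w') ↔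
          (Function.Surjective τ ∧ ∀ k, u (τ k) = w' k) := by
        rw [List.ofFn_inj]
        constructor
        · intro h
          exact ⟨τ.surjective, fun k => congrFun h k⟩
        · rintro ⟨-, h⟩
          exact funext h
      by_cases h : List.ofFn (fun k => u (τ k)) = List.ofFn w'
      · rw [if_pos h, if_pos (this.1 h)]
      · rw [if_neg h, if_neg (fun h' => h (this.2 h'))]

/-- a nonzero polynomial identity gives a multilinear one -/
theorem linearise {C : Type v} [Ring C] [Algebra F C] (S : AddSubgroup C) {n : ℕ}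
    (f : FreeAlgebra F (Fin n)) (hf : f ≠ 0)
    (h : ∀ a : Fin n → C, (∀ i, a i ∈ S) → FreeAlgebra.lift F a f = 0) :
    ∃ (d : ℕ) (c : Equiv.Perm (Fin d) → F), c 1 ≠ 0 ∧
      ∀ a : Fin d → C, (∀ i, a i ∈ S) →
        ∑ τ, c τ • (List.ofFn fun k => a (τ k)).prod = 0 := by
  classical
  set p := (FreeAlgebra.basisFreeMonoid F (Fin n)).repr f with hp
  have hp0 : p ≠ 0 := by
    rw [hp]
    simpa using hf
  obtain ⟨w0, hw0, hmax⟩ := Finset.exists_max_image p.support (fun w => w.toList.length)
    (Finsupp.support_nonempty_iff.2 hp0)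
  set d := w0.toList.length with hd
  set u : Fin d → Fin n := w0.toList.get with hu
  set c : Equiv.Perm (Fin d) → F := fun τ =>
    p (FreeMonoid.ofList (List.ofFn fun k => u (τ k))) with hc
  have hc1 : c 1 = p w0 := by
    simp only [hc, Equiv.Perm.coe_one, id_eq, hu]
    congr 1
    rw [List.ofFn_get]
    simp
  have hc1' : c 1 ≠ 0 := by
    rw [hc1]
    exact Finsupp.mem_support_iff.1 hw0
  have key : ∀ a : Fin d → C, (∀ i, a i ∈ S) →
        ∑ τ, c τ • (List.ofFn fun k => a (τ k)).prod = 0 := by
    intro a ha
    have h1 : ∀ U : Finset (Fin d), FreeAlgebra.lift F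
        (fun i : Fin n => ∑ j ∈ univ.filter (fun j => j ∉ U ∧ u j = i), a j) f = 0 := by
      intro U
      apply h
      intro i
      exact AddSubgroup.sum_mem _ (fun j _ => ha j)
    have h2 : ∑ U : Finset (Fin d), ((-1 : ℤ) ^ U.card) • FreeAlgebra.lift F
        (fun i : Fin n => ∑ j ∈ univ.filter (fun j => j ∉ U ∧ u j = i), a j) f = 0 := by
      apply Finset.sum_eq_zero
      intro U _
      rw [h1 U, smul_zero]
    simp only [lift_eq, Finset.smul_sum] at h2
    rw [Finset.sum_comm] at h2
    have h3 : ∀ w ∈ p.support, (∑ U : Finset (Fin d), ((-1 : ℤ) ^ U.card) •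
        p w • (w.toList.map (fun i : Fin n =>
          ∑ j ∈ univ.filter (fun j => j ∉ U ∧ u j = i), a j)).prod) =
        ∑ τ : Equiv.Perm (Fin d), if List.ofFn (fun k => u (τ k)) = w.toList then
          p w • (List.ofFn fun k => a (τ k)).prod else 0 := by
      intro w hw
      have h4 := incl_excl (F := F) u a w.toList (hmax w hw)
      have h5 := congrArg (fun x => p w • x) h4
      simp only [Finset.smul_sum, smul_ite, smul_zero] at h5
      rw [← h5]
      apply Finset.sum_congr rfl
      intro U _
      exact smul_comm _ _ _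
    rw [← hp] at h2
    rw [Finset.sum_congr rfl h3, Finset.sum_comm] at h2
    rw [← h2]
    apply Finset.sum_congr rfl
    intro τ _
    by_cases hτ : FreeMonoid.ofList (List.ofFn fun k => u (τ k)) ∈ p.support
    · rw [Finset.sum_eq_single_of_mem _ hτ]
      · rw [if_pos (by simp)]
      · intro w _ hw
        rw [if_neg]
        intro h'
        apply hw
        rw [h']
        simp
    · rw [Finset.sum_eq_zero]
      · have : c τ = 0 := by
          simpa [hc] using hτ
        rw [this, zero_smul]
      · intro w hw
        rw [if_neg]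
        intro h'
        apply hτ
        rw [h']
        simpa using hw
  exact ⟨d, c, hc1', key⟩

end

end Pool.Agent.Q117.NE
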