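import Pool.Agent.Q117.NE.Zero

/-! Representations of the rational hull. -/

set_option autoImplicit false

namespace Pool.Agent.Q117.NE

open Pool.Agent.H854R3.NE
open scoped TensorProduct

/-- representation of the rational hull -/
theorem rat_rep {P B : Type} [NonUnitalRing P] [Ring B]
    (hBT : ∀ (n : ℤ) (b : B), (n : B) * b = 0 → n = 0 ∨ b = 0)
    (ι : P →ₙ+* B) (hι : Function.Injective ι)
    (hB : ∀ b : B, ∃ (k : ℤ) (a : P), b = k • 1 + ι a)
    {d : ℕ} (c : Equiv.Perm (Fin d) → ℤ) (hc1 : c 1 ≠ 0)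
    (hc : ∀ a : Fin d → P, ∑ π, c π • (List.ofFn fun k => ι (a (π k))).prod = 0)
    {α : P} (hαk : ∀ k, npw α k ≠ 0) :
    ∃ (K : Type) (_ : Field K) (s : ℕ) (Θ : P →ₙ+* Matrix (Fin s) (Fin s) K),
      ∀ k, npw (Θ α) k ≠ 0 := by
  classical
  have iTF : Module.IsTorsionFree ℤ B := by
    rw [Module.isTorsionFree_iff_smul_eq_zero]
    intro n x hx
    rw [zsmul_eq_mul] at hx
    exact hBT n x hx
  let C := ℚ ⊗[ℤ] B
  let j : B →ₐ[ℤ] C := Algebra.TensorProduct.includeRight
  have hj : Function.Injective j :=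
    Algebra.TensorProduct.includeRight_injective (by
      intro a b hab
      exact_mod_cast hab)
  let J : P → C := fun a => j (ι a)
  have hJ0 : J 0 = 0 := by simp only [J, map_zero]
  have hJadd : ∀ a b, J (a + b) = J a + J b := by
    intro a b; simp only [J, map_add]
  have hJmul : ∀ a b, J (a * b) = J a * J b := by
    intro a b; simp only [J, map_mul]
  have hJsmul : ∀ (k : ℤ) a, J (k • a) = k • J a := by
    intro k a
    simp only [J]
    rw [map_zsmul, map_zsmul]
  have hJinj : ∀ a, J a = 0 → a = 0 := by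
    intro a ha
    have h1 : j (ι a) = j 0 := by rw [map_zero]; exact ha
    exact hι ((hj h1).trans (map_zero ι).symm)
  have hC : ∀ (n : ℤ) (z : C), n • z = 0 → n = 0 ∨ z = 0 := by
    intro n z hz
    rw [← Int.cast_smul_eq_zsmul ℚ n z] at hz
    rcases smul_eq_zero.1 hz with h1 | h1
    · exact Or.inl (by exact_mod_cast h1)
    · exact Or.inr h1
  let S : Submodule ℚ C :=
    { carrier := {z | ∃ N : ℤ, N ≠ 0 ∧ ∃ a : P, N • z = J a}
      add_mem' := by
        rintro z w ⟨N, hN, a, ha⟩ ⟨M, hM, b, hb⟩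
        refine ⟨N * M, mul_ne_zero hN hM, M • a + N • b, ?_⟩
        rw [hJadd, hJsmul, hJsmul, ← ha, ← hb, smul_add, smul_smul, smul_smul, mul_comm N M]
      zero_mem' := ⟨1, one_ne_zero, 0, by rw [smul_zero, hJ0]⟩
      smul_mem' := by
        rintro q z ⟨N, hN, a, ha⟩
        refine ⟨q.den * N, mul_ne_zero (by exact_mod_cast q.den_ne_zero) hN, q.num • a, ?_⟩
        rw [hJsmul, ← ha]
        simp only [← Int.cast_smul_eq_zsmul ℚ, smul_smul]
        congr 1
        push_cast
        have h1 : (q.den : ℚ) * q = q.num := by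
          rw [mul_comm]; exact Rat.mul_den_eq_num _
        rw [← h1]; ring }
  have hS : ∀ z, z ∈ S ↔ ∃ N : ℤ, N ≠ 0 ∧ ∃ a : P, N • z = J a := fun z => Iff.rfl
  have hSmul : ∀ z ∈ S, ∀ w ∈ S, z * w ∈ S := by
    intro z hz w hw
    obtain ⟨N, hN, a, ha⟩ := (hS _).1 hz
    obtain ⟨M, hM, b, hb⟩ := (hS _).1 hw
    refine (hS _).2 ⟨N * M, mul_ne_zero hN hM, a * b, ?_⟩
    rw [hJmul, ← ha, ← hb, smul_mul_smul_comm]
  have hJS : ∀ a, J a ∈ S := fun a => (hS _).2 ⟨1, one_ne_zero, a, one_smul _ _⟩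
  have hspan : ∀ z : C, ∃ t : ℚ, ∃ s ∈ S, z = t • (1 : C) + s := by
    intro z
    induction z using TensorProduct.induction_on with
    | zero => exact ⟨0, 0, S.zero_mem, by rw [zero_smul, add_zero]⟩
    | tmul q b =>
      obtain ⟨k, a, rfl⟩ := hB b
      refine ⟨q * k, q • J a, S.smul_mem _ (hJS a), ?_⟩
      rw [TensorProduct.tmul_add]
      congr 1
      · rw [Algebra.TensorProduct.one_def, TensorProduct.smul_tmul', TensorProduct.tmul_smul,
          TensorProduct.smul_tmul']
        congr 1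
        simp [mul_comm]
      · change _ = q • ((1 : ℚ) ⊗ₜ[ℤ] ι a)
        rw [TensorProduct.smul_tmul', smul_eq_mul, mul_one]
    | add z w hz hw =>
      obtain ⟨t, s, hs, rfl⟩ := hz
      obtain ⟨t', s', hs', rfl⟩ := hw
      exact ⟨t + t', s + s', S.add_mem hs hs', by rw [add_smul]; abel⟩
  have hid : ∀ a : Fin d → C, (∀ i, a i ∈ S) →
      ∑ τ, c τ • (List.ofFn fun k => a (τ k)).prod = 0 := by
    intro a ha
    choose N hN b hb using fun i => (hS _).1 (ha i)
    have h1 := congrArg j (hc b)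
    rw [map_zero, map_sum] at h1
    have h2 : (∏ i, N i) • ∑ τ, c τ • (List.ofFn fun k => a (τ k)).prod = 0 := by
      rw [← h1, Finset.smul_sum]
      apply Finset.sum_congr rfl
      intro τ _
      rw [map_zsmul, smul_comm]
      congr 1
      rw [map_list_prod, List.map_ofFn]
      have h3 := (MultilinearMap.mkPiAlgebraFin ℤ d C).map_smul_univ (fun i => N (τ i))
        (fun i => a (τ i))
      rw [Equiv.prod_comp τ N] at h3
      rw [MultilinearMap.mkPiAlgebraFin_apply, MultilinearMap.mkPiAlgebraFin_apply] at h3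
      rw [← h3]
      congr 2
      funext k
      exact (hb (τ k))
    exact (hC _ _ h2).resolve_left (Finset.prod_ne_zero_iff.2 fun i _ => hN i)
  have hcq : ((c 1 : ℤ) : ℚ) ≠ 0 := by exact_mod_cast hc1
  obtain ⟨m, γ, _, hγ, hX⟩ := Pool.Agent.H67.PI.matrix_identity S hSmul
    (fun τ => ((c 1 : ℤ) : ℚ)⁻¹ * (c τ : ℚ)) (inv_mul_cancel₀ hcq)
    (by
      intro a ha
      have h1 := congrArg (fun z => ((c 1 : ℤ) : ℚ)⁻¹ • z) (hid a ha)
      simp only [smul_zero, Finset.smul_sum] at h1
      rw [← h1]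
      apply Finset.sum_congr rfl
      intro τ _
      rw [mul_smul, Int.cast_smul_eq_zsmul])
    hspan Unit
  have hγC : ∀ a : Fin m → C, ∑ π, γ π • (List.ofFn fun k => a (π k)).prod = 0 := by
    intro a
    have h1 := hX (fun k => Matrix.scalar Unit (a k))
    have h2 : ∀ π : Equiv.Perm (Fin m), (List.ofFn fun k => Matrix.scalar Unit (a (π k))).prod =
        Matrix.scalar Unit ((List.ofFn fun k => a (π k)).prod) := by
      intro π
      rw [map_list_prod, List.map_ofFn]
      rfl
    simp only [h2] at h1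
    have h3 := congrFun (congrFun h1 ()) ()
    rw [Matrix.sum_apply] at h3
    simpa using h3
  obtain ⟨nn, hnn1, hnn⟩ := monic_of_rat γ hγ hγC
  have hβk : ∀ k, J (npw α k) = J α ^ (k + 1) := by
    intro k
    induction k with
    | zero => rw [zero_add, pow_one]; rfl
    | succ k ih =>
      rw [pow_succ, ← ih, ← hJmul]
      rfl
  have hβ : ∀ k, J α ^ k ≠ 0 := by
    intro k
    cases k with
    | zero =>
      rw [pow_zero]
      intro h
      apply hαk 0
      apply hJinj
      change J α = 0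
      rw [← mul_one (J α), h, mul_zero]
    | succ k =>
      rw [← hβk]
      intro h
      exact hαk k (hJinj _ h)
  obtain ⟨K, iK, s, Θ, hΘ⟩ := exists_matrix nn 1 hnn1 hnn hβ
  let Θ₁ : P →ₙ+* Matrix (Fin s) (Fin s) K :=
    { toFun := fun a => Θ (J a)
      map_mul' := by intro a b; rw [hJmul, map_mul]
      map_zero' := by rw [hJ0, map_zero]
      map_add' := by intro a b; rw [hJadd, map_add] }
  refine ⟨K, iK, s, Θ₁, fun k => ?_⟩
  rw [npw_eq_pow]
  exact hΘ (k + 1)

end Pool.Agent.Q117.NE
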