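import Pool.Agent.H854R3.NE.FinRed
import Pool.Agent.Q117.NE.Lin

/-! Two-generated torsion-free rings without zero divisors in the variety are commutative. -/

set_option autoImplicit false

namespace Pool.Agent.Q117.NE

open Pool.Agent.H854R3.NE
open scoped TensorProduct

/-- the free ring with one on two generators -/
abbrev FZ := FreeAlgebra ℤ (Fin 2)

/-- first generator -/
def z0 : FZ := FreeAlgebra.ι ℤ 0
/-- second generator -/
def z1 : FZ := FreeAlgebra.ι ℤ 1

/-- the free ring without one -/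
abbrev PhiZ : NonUnitalSubring FZ := sub2 z0 z1

theorem not_models_PhiZ {p : ℕ} [hp : Fact p.Prime] {E : Set (RTerm × RTerm)}
    (hW : IsEngel (E ∪ WId p (p ^ 1))) : ¬ Models E PhiZ := by
  intro hM
  apply not_models_Phi (p := p) hW
  let f : FZ →ₐ[ℤ] FA p := FreeAlgebra.lift ℤ ![g0 p, g1 p]
  let g : PhiZ →ₙ+* FA p :=
    { toFun := fun w => f (w : FZ)
      map_mul' := fun a b => map_mul f (a : FZ) b
      map_zero' := map_zero f
      map_add' := fun a b => map_add f (a : FZ) b }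
  have h1 : Models E g.range := hM.of_surjective g.rangeRestrict
    (NonUnitalRingHom.rangeRestrict_surjective g)
  have hle : Phi p ≤ g.range := by
    unfold Phi sub2
    rw [NonUnitalSubring.closure_le]
    rintro w (rfl | hw)
    · refine ⟨sx z0 z1, ?_⟩
      change f z0 = g0 p
      simp [f, z0]
    · rw [Set.mem_singleton_iff] at hw
      subst hw
      refine ⟨sy z0 z1, ?_⟩
      change f z1 = g1 p
      simp [f, z1]
  exact h1.of_injective (NonUnitalSubring.inclusion hle) (by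
    intro a b hab
    exact Subtype.ext (congrArg (fun z : g.range => (z : FA p)) hab))

theorem exists_polyZ {p : ℕ} [hp : Fact p.Prime] {E : Set (RTerm × RTerm)}
    (hW : IsEngel (E ∪ WId p (p ^ 1))) :
    ∃ f : FZ, f ≠ 0 ∧ ∀ (A B : Type) [NonUnitalRing A] [Ring B] (ι : A →ₙ+* B),
      Function.Injective ι → Models E A →
      ∀ x y : A, FreeAlgebra.lift ℤ ![ι x, ι y] f = 0 := by
  by_contra hcon
  push Not at hcon
  apply not_models_PhiZ hW
  intro e he v
  by_contra hne
  have hw : ((e.1.val v - e.2.val v : PhiZ) : FZ) ≠ 0 := by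
    intro h
    apply hne
    have : e.1.val v - e.2.val v = 0 := Subtype.ext h
    exact sub_eq_zero.1 this
  obtain ⟨A, B, i1, i2, ι, hι, hA, x, y, hxy⟩ := hcon _ hw
  let L := FreeAlgebra.lift ℤ ![ι x, ι y]
  have hL : ∀ w : PhiZ, ∃ a : A, L (w : FZ) = ι a := by
    intro w
    refine (genBy_sub2 z0 z1).induction (P := fun w => ∃ a : A, L (w : FZ) = ι a)
      ?_ ?_ ?_ ?_ ?_ ?_ w
    · exact ⟨x, by simp [L, sx, z0]⟩
    · exact ⟨y, by simp [L, sy, z1]⟩
    · exact ⟨0, by simp⟩
    · rintro a b ⟨a', ha⟩ ⟨b', hb⟩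
      refine ⟨a' + b', ?_⟩
      change L ((a : FZ) + b) = _
      rw [map_add, ha, hb, map_add]
    · rintro a ⟨a', ha⟩
      refine ⟨-a', ?_⟩
      change L (-(a : FZ)) = _
      rw [map_neg, ha, map_neg]
    · rintro a b ⟨a', ha⟩ ⟨b', hb⟩
      refine ⟨a' * b', ?_⟩
      change L ((a : FZ) * b) = _
      rw [map_mul, ha, hb, map_mul]
  choose ψ hψ using hL
  let Ψ : PhiZ →ₙ+* A :=
    { toFun := ψ
      map_mul' := by
        intro a b
        apply hι
        rw [map_mul, ← hψ, ← hψ, ← hψ]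
        exact map_mul L (a : FZ) b
      map_zero' := by
        apply hι
        rw [map_zero, ← hψ]
        exact map_zero L
      map_add' := by
        intro a b
        apply hι
        rw [map_add, ← hψ, ← hψ, ← hψ]
        exact map_add L (a : FZ) b }
  apply hxy
  have h1 : Ψ (e.1.val v - e.2.val v) = 0 := by
    rw [map_sub, val_map, val_map, sub_eq_zero]
    exact hA e he _
  have h2 : L ((e.1.val v - e.2.val v : PhiZ) : FZ) = ι (Ψ (e.1.val v - e.2.val v)) := hψ _
  rw [h1, map_zero] at h2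
  exact h2

/-- multilinear identity on the ring `A` inside a ring with one -/
theorem exists_mlZ {p : ℕ} [hp : Fact p.Prime] {E : Set (RTerm × RTerm)}
    (hW : IsEngel (E ∪ WId p (p ^ 1))) (A B : Type) [NonUnitalRing A] [Ring B] (ι : A →ₙ+* B)
    (hι : Function.Injective ι) (hA : Models E A) :
    ∃ (d : ℕ) (c : Equiv.Perm (Fin d) → ℤ), c 1 ≠ 0 ∧ ∀ a : Fin d → A,
      ∑ π, c π • (List.ofFn fun k => ι (a (π k))).prod = 0 := by
  obtain ⟨f, hf, hfA⟩ := exists_polyZ hW
  let S : AddSubgroup B :=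
    { carrier := {z | ∃ a : A, ι a = z}
      add_mem' := by
        rintro _ _ ⟨a, rfl⟩ ⟨b, rfl⟩
        exact ⟨a + b, map_add ι a b⟩
      zero_mem' := ⟨0, map_zero ι⟩
      neg_mem' := by
        rintro _ ⟨a, rfl⟩
        exact ⟨-a, map_neg ι a⟩ }
  have hS : ∀ z, z ∈ S ↔ ∃ a : A, ι a = z := fun z => Iff.rfl
  have hh : ∀ a : Fin 2 → B, (∀ i, a i ∈ S) → FreeAlgebra.lift ℤ a f = 0 := by
    intro a ha
    obtain ⟨x, hx⟩ := (hS _).1 (ha 0)
    obtain ⟨y, hy⟩ := (hS _).1 (ha 1)
    have : a = ![ι x, ι y] := by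
      funext i
      fin_cases i
      · exact hx.symm
      · exact hy.symm
    rw [this]
    exact hfA A B ι hι hA x y
  obtain ⟨d, c, hc1, hc⟩ := linearise (F := ℤ) (C := B) S f hf hh
  exact ⟨d, c, hc1, fun a => hc _ fun i => (hS _).2 ⟨a i, rfl⟩⟩

theorem torsionFree_unitization {A : Type} [NonUnitalRing A]
    (hT : ∀ (n : ℤ) (a : A), n • a = 0 → n = 0 ∨ a = 0) :
    Module.IsTorsionFree ℤ (Unitization ℤ A) := by
  rw [Module.isTorsionFree_iff_smul_eq_zero]
  intro n x hx
  have h0 := congrArg Unitization.toProd hx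
  have h1 : n * x.toProd.1 = 0 := congrArg Prod.fst h0
  have h2 : n • x.toProd.2 = 0 := congrArg Prod.snd h0
  by_cases hn : n = 0
  · exact Or.inl hn
  · right
    apply Unitization.toProd_injective
    exact Prod.ext ((mul_eq_zero.1 h1).resolve_left hn) ((hT _ _ h2).resolve_left hn)

/-- multilinear identities with integer coefficients -/
def Ident (C : Type) [Ring C] (m : ℕ) (c : Equiv.Perm (Fin m) → ℤ) : Prop :=
  ∀ a : Fin m → C, ∑ π, c π • (List.ofFn fun k => a (π k)).prod = 0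

theorem Ident.relabel {C : Type} [Ring C] {m : ℕ} {c : Equiv.Perm (Fin m) → ℤ}
    (h : Ident C m c) (ρ : Equiv.Perm (Fin m)) : Ident C m (fun σ => c (ρ * σ)) := by
  intro a
  have h1 := h (fun i => a (ρ⁻¹ i))
  rw [← h1]
  refine Fintype.sum_equiv (Equiv.mulLeft ρ) _ _ ?_
  intro σ
  simp only [Equiv.coe_mulLeft]
  congr 2
  congr 1
  funext k
  simp

/-- a nonzero multilinear identity of a torsion-free ring can be made monic -/
theorem exists_monic {C : Type} [Ring C] (hC : ∀ (n : ℤ) (z : C), n • z = 0 → n = 0 ∨ z = 0)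
    {m : ℕ} (c : Equiv.Perm (Fin m) → ℤ) (hc : Ident C m c) (hc0 : c 1 ≠ 0) :
    ∃ nn : Equiv.Perm (Fin m) → ℤ, nn 1 = 1 ∧ Ident C m nn := by
  classical
  have hex : ∃ N : ℕ, ∃ c : Equiv.Perm (Fin m) → ℤ, Ident C m c ∧ c 1 ≠ 0 ∧ (c 1).natAbs = N :=
    ⟨_, c, hc, hc0, rfl⟩
  obtain ⟨c, hc, hc0, hcN⟩ := Nat.find_spec hex
  have hmin : ∀ c' : Equiv.Perm (Fin m) → ℤ, Ident C m c' → (c' 1).natAbs < (c 1).natAbs →
      c' 1 = 0 := by
    intro c' hc' hlt
    by_contra hne
    rw [hcN] at hlt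
    exact Nat.find_min hex hlt ⟨c', hc', hne, rfl⟩
  have hdvd : ∀ π, c 1 ∣ c π := by
    intro π
    have h1 : Ident C m (fun σ => c (π * σ) - (c π / c 1) * c σ) := by
      intro a
      have h2 := hc.relabel π a
      have h3 := congrArg (fun z => (c π / c 1) • z) (hc a)
      simp only [smul_zero, Finset.smul_sum, smul_smul] at h3
      simp only [sub_smul, Finset.sum_sub_distrib]
      rw [h2, h3, sub_zero]
    have h2 := hmin _ h1 (by
      simp only [mul_one]
      have h3 : c π - c π / c 1 * c 1 = c π % c 1 := by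
        rw [Int.emod_def, mul_comm]
      rw [h3]
      have h4 := Int.emod_nonneg (c π) hc0
      have h5 := Int.emod_lt_abs (c π) hc0
      zify
      rw [abs_of_nonneg h4]
      exact h5)
    simp only [mul_one] at h2
    exact ⟨c π / c 1, by linarith⟩
  refine ⟨fun π => c π / c 1, Int.ediv_self hc0, ?_⟩
  intro a
  have h1 : c 1 • ∑ π, (c π / c 1) • (List.ofFn fun k => a (π k)).prod = 0 := by
    rw [← hc a, Finset.smul_sum]
    apply Finset.sum_congr rfl
    intro π _
    rw [smul_smul, Int.mul_ediv_cancel' (hdvd π)]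
  exact (hC _ _ h1).resolve_left hc0

/-- rational multilinear identities give monic integral ones -/
theorem monic_of_rat {C : Type} [Ring C] [Algebra ℚ C] {m : ℕ} (α : Equiv.Perm (Fin m) → ℚ)
    (hα : α ≠ 0)
    (h : ∀ a : Fin m → C, ∑ π, α π • (List.ofFn fun k => a (π k)).prod = 0) :
    ∃ nn : Equiv.Perm (Fin m) → ℤ, nn 1 = 1 ∧ Ident C m nn := by
  classical
  have hC : ∀ (n : ℤ) (z : C), n • z = 0 → n = 0 ∨ z = 0 := by
    intro n z hz
    rw [← Int.cast_smul_eq_zsmul ℚ n z] at hz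
    rcases smul_eq_zero.1 hz with h1 | h1
    · exact Or.inl (by exact_mod_cast h1)
    · exact Or.inr h1
  obtain ⟨π0, hπ0⟩ : ∃ π0, α π0 ≠ 0 := by
    by_contra hcon
    push Not at hcon
    exact hα (funext hcon)
  let N : ℕ := ∏ π, (α π).den
  have hN : N ≠ 0 := Finset.prod_ne_zero_iff.2 fun π _ => (α π).den_ne_zero
  have hint : ∀ π, ∃ z : ℤ, (N : ℚ) * α π = z := by
    intro π
    obtain ⟨k, hk⟩ : (α π).den ∣ N := Finset.dvd_prod_of_mem _ (Finset.mem_univ π)
    refine ⟨k * (α π).num, ?_⟩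
    rw [hk]
    push_cast
    have h1 : ((α π).den : ℚ) * α π = (α π).num := by
      rw [mul_comm]; exact Rat.mul_den_eq_num _
    rw [mul_comm ((α π).den : ℚ) (k : ℚ), mul_assoc, h1]
  choose z hz using hint
  have hzI : Ident C m z := by
    intro a
    have h1 := congrArg (fun w => (N : ℚ) • w) (h a)
    simp only [smul_zero, Finset.smul_sum, smul_smul, hz] at h1
    rw [← h1]
    apply Finset.sum_congr rfl
    intro π _
    rw [Int.cast_smul_eq_zsmul]
  apply exists_monic hC _ (hzI.relabel π0)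
  rw [mul_one]
  intro h0
  have h1 := hz π0
  rw [h0, Int.cast_zero] at h1
  rcases mul_eq_zero.1 h1 with h2 | h2
  · exact hN (by exact_mod_cast h2)
  · exact hπ0 h2

end Pool.Agent.Q117.NE
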